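import Pool.Agent.STR.Stmts

/-!
# Squad STR, module BES: Bessel's inequality for the differences of `T ρ F`, at every point
-/

set_option autoImplicit false

namespace Pool.Agent.STR.H48

open Finset Pool.Agent.STR

section bessel

variable {Y ι : Type} [Fintype Y] [Fintype ι] [DecidableEq ι]

/-- Bessel's inequality for an orthogonal family. -/
lemma bessel (mu : Y → ℝ) (F : Y → ℝ) (φ : ι → Y → ℝ) (J : Finset ι) (M w : ℝ)
    (hmu : ∀ y, 0 ≤ mu y) (h1 : ∑ y, mu y = 1) (hF : ∀ y, |F y| ≤ M) (hw : 0 ≤ w)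
    (hφ : ∀ a ∈ J, ∀ b ∈ J, ∑ y, mu y * (φ a y * φ b y) = if a = b then w else 0) :
    ∑ a ∈ J, (∑ y, mu y * (F y * φ a y)) ^ 2 ≤ w * M ^ 2 := by
  set A : ι → ℝ := fun a => ∑ y, mu y * (F y * φ a y) with hA
  set S : ℝ := ∑ a ∈ J, A a ^ 2 with hS
  have hS0 : 0 ≤ S := Finset.sum_nonneg fun a _ => sq_nonneg _
  set ψ : Y → ℝ := fun y => ∑ a ∈ J, A a * φ a y with hψ
  have e1 : ∑ y, mu y * (F y * ψ y) = S := by
    have : ∀ y, mu y * (F y * ψ y) = ∑ a ∈ J, A a * (mu y * (F y * φ a y)) := by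
      intro y
      rw [hψ]
      simp only
      rw [Finset.mul_sum, Finset.mul_sum]
      exact Finset.sum_congr rfl fun a _ => by ring
    rw [Finset.sum_congr rfl fun y _ => this y, Finset.sum_comm]
    rw [hS]
    refine Finset.sum_congr rfl fun a _ => ?_
    rw [← Finset.mul_sum, pow_two]
  have e2 : ∑ y, mu y * (ψ y) ^ 2 = w * S := by
    have : ∀ y, mu y * (ψ y) ^ 2 =
        ∑ a ∈ J, ∑ b ∈ J, A a * A b * (mu y * (φ a y * φ b y)) := by
      intro y
      rw [hψ]
      simp only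
      rw [pow_two, Finset.sum_mul_sum, Finset.mul_sum]
      refine Finset.sum_congr rfl fun a _ => ?_
      rw [Finset.mul_sum]
      exact Finset.sum_congr rfl fun b _ => by ring
    rw [Finset.sum_congr rfl fun y _ => this y, Finset.sum_comm, hS, Finset.mul_sum]
    refine Finset.sum_congr rfl fun a ha => ?_
    rw [Finset.sum_comm]
    have e3 : ∀ b ∈ J, ∑ y, A a * A b * (mu y * (φ a y * φ b y)) =
        if a = b then w * A a ^ 2 else 0 := by
      intro b hb
      rw [← Finset.mul_sum, hφ a ha b hb]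
      split_ifs with h
      · subst h
        ring
      · ring
    rw [Finset.sum_congr rfl e3, Finset.sum_ite_eq, if_pos ha]
  have e4 : S ^ 2 ≤ M ^ 2 * (w * S) := by
    have c1 : (∑ y, (Real.sqrt (mu y) * F y) * (Real.sqrt (mu y) * ψ y)) ^ 2 ≤
        (∑ y, (Real.sqrt (mu y) * F y) ^ 2) * ∑ y, (Real.sqrt (mu y) * ψ y) ^ 2 :=
      Finset.sum_mul_sq_le_sq_mul_sq _ _ _
    have c2 : ∀ y, (Real.sqrt (mu y) * F y) * (Real.sqrt (mu y) * ψ y) = mu y * (F y * ψ y) := by
      intro y
      have := Real.mul_self_sqrt (hmu y)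
      calc _ = (Real.sqrt (mu y) * Real.sqrt (mu y)) * (F y * ψ y) := by ring
        _ = _ := by rw [this]
    have c3 : ∀ y, (Real.sqrt (mu y) * ψ y) ^ 2 = mu y * ψ y ^ 2 := by
      intro y
      rw [mul_pow, Real.sq_sqrt (hmu y)]
    have c4 : ∑ y, (Real.sqrt (mu y) * F y) ^ 2 ≤ M ^ 2 := by
      have c5 : ∀ y ∈ (Finset.univ : Finset Y), (Real.sqrt (mu y) * F y) ^ 2 ≤ mu y * M ^ 2 := by
        intro y _
        rw [mul_pow, Real.sq_sqrt (hmu y)]
        refine mul_le_mul_of_nonneg_left ?_ (hmu y)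
        have := hF y
        exact sq_le_sq' (by linarith [(abs_le.1 this).1]) (abs_le.1 this).2
      refine (Finset.sum_le_sum c5).trans ?_
      rw [← Finset.sum_mul, h1, one_mul]
    rw [Finset.sum_congr rfl fun y _ => c2 y, Finset.sum_congr rfl fun y _ => c3 y, e1, e2] at c1
    exact c1.trans (mul_le_mul_of_nonneg_right c4 (mul_nonneg hw hS0))
  rcases hS0.lt_or_eq with h | h
  · have : S * S ≤ S * (w * M ^ 2) := by nlinarith
    exact le_of_mul_le_mul_left this h
  · rw [← h]
    exact mul_nonneg hw (sq_nonneg _)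

end bessel

section cube

variable {α : Type} [Fintype α] [DecidableEq α]

/-- The kernel of the noise operator. -/
noncomputable def ker (ρ : ℝ) (x y : α → Bool) : ℝ := ∏ i, (1 + ρ * chi (x i) (y i)) / 2

/-- The score of one coordinate. -/
noncomputable def sc (ρ : ℝ) (x : α → Bool) (i : α) (b : Bool) : ℝ :=
  2 * (ρ * chi (x i) b) / (1 + ρ * chi (x i) b)

lemma chi_cases (a b : Bool) : chi a b = 1 ∨ chi a b = -1 := by
  cases a <;> cases b <;> simp [chi]

lemma chi_not (a b : Bool) : chi (!a) b = - chi a b := by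
  cases a <;> cases b <;> simp [chi]

lemma den_pos {ρ : ℝ} (h0 : 0 ≤ ρ) (h1 : ρ < 1) (a b : Bool) : 0 < 1 + ρ * chi a b := by
  rcases chi_cases a b with h | h <;> rw [h] <;> linarith

lemma ker_fl {ρ : ℝ} (h0 : 0 ≤ ρ) (h1 : ρ < 1) (x y : α → Bool) (i : α) :
    ker ρ (fl x i) y = ker ρ x y * (1 - sc ρ x i (y i)) := by
  unfold ker
  rw [← Finset.mul_prod_erase Finset.univ _ (Finset.mem_univ i),
    ← Finset.mul_prod_erase Finset.univ (fun i => (1 + ρ * chi (x i) (y i)) / 2)
      (Finset.mem_univ i)]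
  have e : ∀ j ∈ Finset.univ.erase i, (1 + ρ * chi (fl x i j) (y j)) / 2 =
      (1 + ρ * chi (x j) (y j)) / 2 := by
    intro j hj
    unfold fl
    rw [Function.update_of_ne (Finset.ne_of_mem_erase hj)]
  rw [Finset.prod_congr rfl e]
  have e2 : (1 + ρ * chi (fl x i i) (y i)) / 2 =
      (1 + ρ * chi (x i) (y i)) / 2 * (1 - sc ρ x i (y i)) := by
    have e3 : fl x i i = !x i := by
      unfold fl
      rw [Function.update_self]
    rw [e3, chi_not]
    unfold sc
    have := (den_pos h0 h1 (x i) (y i)).ne'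
    field_simp
    ring
  rw [e2]
  ring

lemma sc_fl (ρ : ℝ) (x : α → Bool) (i j : α) (h : j ≠ i) (b : Bool) :
    sc ρ (fl x i) j b = sc ρ x j b := by
  unfold sc fl
  rw [Function.update_of_ne h]

/-- Sums of products. -/
lemma sum_prod_cube (g : α → Bool → ℝ) :
    ∑ y : α → Bool, ∏ i, g i (y i) = ∏ i, (g i true + g i false) := by
  have h := Finset.prod_univ_sum (fun _ : α => (Finset.univ : Finset Bool)) g
  rw [Fintype.piFinset_univ] at h
  rw [← h]
  refine Finset.prod_congr rfl fun i _ => ?_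
  rw [Fintype.sum_bool]

lemma ker_nonneg {ρ : ℝ} (h0 : 0 ≤ ρ) (h1 : ρ < 1) (x y : α → Bool) : 0 ≤ ker ρ x y :=
  Finset.prod_nonneg fun i _ => by
    have := den_pos h0 h1 (x i) (y i)
    linarith

lemma ker_sum (ρ : ℝ) (x : α → Bool) : ∑ y, ker ρ x y = 1 := by
  unfold ker
  rw [sum_prod_cube (fun i b => (1 + ρ * chi (x i) b) / 2)]
  apply Finset.prod_eq_one
  intro i _
  cases x i <;> simp [chi] <;> ring

/-- The products of the scores are orthogonal. -/
lemma orth {ρ : ℝ} (h0 : 0 ≤ ρ) (h1 : ρ < 1) (x : α → Bool) (S S' : Finset α) :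
    ∑ y, ker ρ x y * ((∏ i ∈ S, sc ρ x i (y i)) * ∏ i ∈ S', sc ρ x i (y i)) =
      if S = S' then (4 * ρ ^ 2 / (1 - ρ ^ 2)) ^ S.card else 0 := by
  have hp1 : (1 + ρ) ≠ 0 := by linarith
  have hp2 : (1 - ρ) ≠ 0 := by linarith
  have hp3 : (1 - ρ ^ 2) ≠ 0 := by nlinarith
  have e : ∀ y : α → Bool,
      ker ρ x y * ((∏ i ∈ S, sc ρ x i (y i)) * ∏ i ∈ S', sc ρ x i (y i)) =
      ∏ i, ((1 + ρ * chi (x i) (y i)) / 2 * ((if i ∈ S then sc ρ x i (y i) else 1) *
        (if i ∈ S' then sc ρ x i (y i) else 1))) := by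
    intro y
    rw [Finset.prod_mul_distrib, Finset.prod_mul_distrib, Finset.prod_ite_mem,
      Finset.prod_ite_mem, Finset.univ_inter, Finset.univ_inter]
    rfl
  rw [Finset.sum_congr rfl fun y _ => e y,
    sum_prod_cube (fun i b => (1 + ρ * chi (x i) b) / 2 * ((if i ∈ S then sc ρ x i b else 1) *
        (if i ∈ S' then sc ρ x i b else 1)))]
  have hboth : ∀ i, (1 + ρ * chi (x i) true) / 2 * (sc ρ x i true * sc ρ x i true) +
      (1 + ρ * chi (x i) false) / 2 * (sc ρ x i false * sc ρ x i false) =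
      4 * ρ ^ 2 / (1 - ρ ^ 2) := by
    intro i
    have q1 : (1 - ρ ^ 2) = (1 + ρ) * (1 - ρ) := by ring
    unfold sc
    cases x i
    · simp only [chi]
      simp
      have q2 : (1 + -ρ) ≠ 0 := by
        intro h
        apply hp2
        linarith
      rw [q1]
      field_simp
      ring
    · simp only [chi]
      simp
      have q2 : (1 + -ρ) ≠ 0 := by
        intro h
        apply hp2
        linarith
      rw [q1]
      field_simp
      ring
  have hone : ∀ i, (1 + ρ * chi (x i) true) / 2 * sc ρ x i true +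
      (1 + ρ * chi (x i) false) / 2 * sc ρ x i false = 0 := by
    intro i
    have n1 := (den_pos h0 h1 (x i) true).ne'
    have n2 := (den_pos h0 h1 (x i) false).ne'
    have e1 : (1 + ρ * chi (x i) true) / 2 * sc ρ x i true = ρ * chi (x i) true := by
      unfold sc
      field_simp
    have e2 : (1 + ρ * chi (x i) false) / 2 * sc ρ x i false = ρ * chi (x i) false := by
      unfold sc
      field_simp
    rw [e1, e2]
    cases x i <;> simp [chi]
  have hnone : ∀ i, (1 + ρ * chi (x i) true) / 2 + (1 + ρ * chi (x i) false) / 2 = 1 := by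
    intro i
    cases x i <;> simp [chi] <;> ring
  split_ifs with h
  · subst h
    have e2 : ∀ i, ((1 + ρ * chi (x i) true) / 2 * ((if i ∈ S then sc ρ x i true else 1) *
          (if i ∈ S then sc ρ x i true else 1)) +
        (1 + ρ * chi (x i) false) / 2 * ((if i ∈ S then sc ρ x i false else 1) *
          (if i ∈ S then sc ρ x i false else 1))) =
        if i ∈ S then 4 * ρ ^ 2 / (1 - ρ ^ 2) else 1 := by
      intro i
      split_ifs with hi
      · exact hboth i
      · have := hnone i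
        linarith
    rw [Finset.prod_congr rfl fun i _ => e2 i, Finset.prod_ite_mem, Finset.univ_inter,
      Finset.prod_const]
  · have h3 : ∃ i, ¬ (i ∈ S ↔ i ∈ S') := by
      by_contra hcon
      push Not at hcon
      exact h (Finset.ext hcon)
    obtain ⟨i, hi⟩ := h3
    apply Finset.prod_eq_zero (Finset.mem_univ i)
    by_cases ha : i ∈ S
    · have hb : i ∉ S' := fun hb => hi ⟨fun _ => hb, fun _ => ha⟩
      simp only [if_pos ha, if_neg hb, mul_one]
      exact hone i
    · have hb : i ∈ S' := by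
        by_contra hb
        exact hi ⟨fun h => absurd h ha, fun h => absurd h hb⟩
      simp only [if_neg ha, if_pos hb, one_mul]
      exact hone i

lemma T_ker (ρ : ℝ) (F : (α → Bool) → ℝ) (x : α → Bool) : T ρ F x = ∑ y, ker ρ x y * F y := rfl

end cube

theorem bes : BesStmt := by
  classical
  intro α _ _ ρ F M h0 h1 hF x
  have hv : 0 ≤ 4 * ρ ^ 2 / (1 - ρ ^ 2) := by
    apply div_nonneg
    · positivity
    · nlinarith
  set v : ℝ := 4 * ρ ^ 2 / (1 - ρ ^ 2) with hvd
  -- Bessel on the level `n`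
  have key : ∀ n : ℕ, ∑ S ∈ Finset.powersetCard n (Finset.univ : Finset α),
      (∑ y, ker ρ x y * (F y * ∏ i ∈ S, sc ρ x i (y i))) ^ 2 ≤ v ^ n * M ^ 2 := by
    intro n
    refine bessel (ker ρ x) F (fun (S : Finset α) y => ∏ i ∈ S, sc ρ x i (y i))
      (Finset.powersetCard n Finset.univ) M (v ^ n) (fun y => ker_nonneg h0 h1 x y)
      (ker_sum ρ x) hF (pow_nonneg hv n) ?_
    intro a ha b hb
    rw [orth h0 h1, (Finset.mem_powersetCard.1 ha).2]
  have d1 : ∀ i, T ρ F (fl x i) - T ρ F x = - ∑ y, ker ρ x y * (F y * sc ρ x i (y i)) := by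
    intro i
    rw [T_ker, T_ker, ← Finset.sum_sub_distrib, ← Finset.sum_neg_distrib]
    refine Finset.sum_congr rfl fun y _ => ?_
    rw [ker_fl h0 h1]
    ring
  have d2 : ∀ i j, j ≠ i →
      T ρ F (fl (fl x i) j) - T ρ F (fl x i) - T ρ F (fl x j) + T ρ F x =
      ∑ y, ker ρ x y * (F y * (sc ρ x i (y i) * sc ρ x j (y j))) := by
    intro i j hij
    rw [T_ker, T_ker, T_ker, T_ker, ← Finset.sum_sub_distrib, ← Finset.sum_sub_distrib,
      ← Finset.sum_add_distrib]
    refine Finset.sum_congr rfl fun y _ => ?_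
    rw [ker_fl h0 h1 (fl x i) y j, ker_fl h0 h1, ker_fl h0 h1, sc_fl ρ x i j hij]
    ring
  refine ⟨?_, ?_⟩
  · have k1 := key 1
    rw [pow_one] at k1
    refine le_trans (le_of_eq ?_) k1
    rw [Finset.powersetCard_one, Finset.sum_map]
    refine Finset.sum_congr rfl fun i _ => ?_
    rw [d1]
    simp
  · have k2 := key 2
    have e1 : ∑ i, ∑ j ∈ univ.erase i,
        (T ρ F (fl (fl x i) j) - T ρ F (fl x i) - T ρ F (fl x j) + T ρ F x) ^ 2 =
        ∑ p ∈ (Finset.univ : Finset α).offDiag,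
          (∑ y, ker ρ x y * (F y * ∏ i ∈ ({p.1, p.2} : Finset α), sc ρ x i (y i))) ^ 2 := by
      rw [← Finset.sum_finset_product' (Finset.univ : Finset α).offDiag Finset.univ
        (fun i => Finset.univ.erase i)
        (f := fun i j => (T ρ F (fl (fl x i) j) - T ρ F (fl x i) - T ρ F (fl x j) + T ρ F x) ^ 2)]
      · refine Finset.sum_congr rfl fun p hp => ?_
        rw [Finset.mem_offDiag] at hp
        rw [d2 p.1 p.2 hp.2.2.symm]
        congr 1
        refine Finset.sum_congr rfl fun y _ => ?_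
        rw [Finset.prod_pair hp.2.2]
      · intro p
        rw [Finset.mem_offDiag]
        simp only [Finset.mem_univ, true_and, Finset.mem_erase, and_true]
        exact ⟨fun h => h.symm, fun h => h.symm⟩
    rw [e1]
    have e2 : ∑ p ∈ (Finset.univ : Finset α).offDiag,
          (∑ y, ker ρ x y * (F y * ∏ i ∈ ({p.1, p.2} : Finset α), sc ρ x i (y i))) ^ 2 =
        ∑ S ∈ Finset.powersetCard 2 (Finset.univ : Finset α),
          ∑ p ∈ (Finset.univ : Finset α).offDiag with ({p.1, p.2} : Finset α) = S,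
          (∑ y, ker ρ x y * (F y * ∏ i ∈ ({p.1, p.2} : Finset α), sc ρ x i (y i))) ^ 2 := by
      refine (Finset.sum_fiberwise_of_maps_to ?_ _).symm
      intro p hp
      rw [Finset.mem_offDiag] at hp
      rw [Finset.mem_powersetCard]
      exact ⟨Finset.subset_univ _, Finset.card_pair hp.2.2⟩
    rw [e2]
    have e3 : ∀ S ∈ Finset.powersetCard 2 (Finset.univ : Finset α),
        ∑ p ∈ (Finset.univ : Finset α).offDiag with ({p.1, p.2} : Finset α) = S,
          (∑ y, ker ρ x y * (F y * ∏ i ∈ ({p.1, p.2} : Finset α), sc ρ x i (y i))) ^ 2 ≤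
        2 * (∑ y, ker ρ x y * (F y * ∏ i ∈ S, sc ρ x i (y i))) ^ 2 := by
      intro S hS
      have e4 : ∑ p ∈ (Finset.univ : Finset α).offDiag with ({p.1, p.2} : Finset α) = S,
          (∑ y, ker ρ x y * (F y * ∏ i ∈ ({p.1, p.2} : Finset α), sc ρ x i (y i))) ^ 2 =
          ∑ p ∈ (Finset.univ : Finset α).offDiag with ({p.1, p.2} : Finset α) = S,
          (∑ y, ker ρ x y * (F y * ∏ i ∈ S, sc ρ x i (y i))) ^ 2 := by
        refine Finset.sum_congr rfl fun p hp => ?_
        rw [Finset.mem_filter] at hp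
        rw [hp.2]
      rw [e4, Finset.sum_const, nsmul_eq_mul]
      refine mul_le_mul_of_nonneg_right ?_ (sq_nonneg _)
      obtain ⟨a, b, hab, rfl⟩ := Finset.card_eq_two.1 (Finset.mem_powersetCard.1 hS).2
      have e5 : ((Finset.univ : Finset α).offDiag.filter fun p =>
          ({p.1, p.2} : Finset α) = {a, b}) ⊆ {(a, b), (b, a)} := by
        intro p hp
        rw [Finset.mem_filter, Finset.mem_offDiag] at hp
        obtain ⟨⟨-, -, hne⟩, h2⟩ := hp
        have m1 : p.1 ∈ ({a, b} : Finset α) := by rw [← h2]; simp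
        have m2 : p.2 ∈ ({a, b} : Finset α) := by rw [← h2]; simp
        rw [Finset.mem_insert, Finset.mem_singleton] at m1 m2 ⊢
        rcases m1 with m1 | m1 <;> rcases m2 with m2 | m2
        · exact absurd (m1.trans m2.symm) hne
        · exact Or.inl (Prod.ext m1 m2)
        · exact Or.inr (Prod.ext m1 m2)
        · exact absurd (m1.trans m2.symm) hne
      have e6 := (Finset.card_le_card e5).trans (Finset.card_le_two)
      exact_mod_cast e6
    refine (Finset.sum_le_sum e3).trans ?_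
    rw [← Finset.mul_sum]
    have : 2 * v ^ 2 * M ^ 2 = 2 * (v ^ 2 * M ^ 2) := by ring
    rw [this]
    exact mul_le_mul_of_nonneg_left k2 (by norm_num)

end Pool.Agent.STR.H48
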