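import Pool.Agent.STR.Stmts

/-!
# Squad STR, module POI: noise changes the integral of a Lipschitz function by little
-/

set_option autoImplicit false

namespace Pool.Agent.STR.H48

open Finset Pool.Agent.STR

/-- The sign of a bit. -/
def sg (b : Bool) : ℝ := if b then 1 else -1

lemma chi_eq (a b : Bool) : chi a b = sg a * sg b := by
  cases a <;> cases b <;> simp [chi, sg]

lemma sg_not (b : Bool) : sg (!b) = - sg b := by cases b <;> simp [sg]

lemma sg_sq (b : Bool) : sg b * sg b = 1 := by cases b <;> simp [sg]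

section walsh

variable {α : Type} [Fintype α] [DecidableEq α]

/-- Walsh functions. -/
noncomputable def ws (S : Finset α) (x : α → Bool) : ℝ := ∏ i ∈ S, sg (x i)

/-- Walsh coefficients. -/
noncomputable def wc (F : (α → Bool) → ℝ) (S : Finset α) : ℝ := av fun x => F x * ws S x

lemma card_cube : (Fintype.card (α → Bool) : ℝ) = 2 ^ Fintype.card α := by
  rw [Fintype.card_fun, Fintype.card_bool]
  push_cast
  rfl

lemma card_pos : (0 : ℝ) < (Fintype.card (α → Bool) : ℝ) := by
  rw [card_cube]
  positivity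

/-- The generating function of the Walsh functions. -/
lemma sum_ws (t : ℝ) (x y : α → Bool) :
    ∑ S : Finset α, t ^ S.card * (ws S x * ws S y) = ∏ i, (1 + t * chi (x i) (y i)) := by
  rw [Finset.prod_one_add, Finset.powerset_univ]
  refine Finset.sum_congr rfl fun S _ => ?_
  unfold ws
  rw [← Finset.prod_mul_distrib, ← Finset.prod_const, ← Finset.prod_mul_distrib]
  exact Finset.prod_congr rfl fun i _ => by rw [chi_eq]

lemma prod_two (x y : α → Bool) :
    ∏ i, (1 + 1 * chi (x i) (y i)) = if x = y then (Fintype.card (α → Bool) : ℝ) else 0 := by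
  split_ifs with h
  · subst h
    rw [card_cube, Finset.prod_congr rfl (g := fun _ => (2 : ℝ))]
    · rw [Finset.prod_const, Finset.card_univ]
    · intro i _
      simp [chi]
      norm_num
  · obtain ⟨i, hi⟩ := Function.ne_iff.1 h
    apply Finset.prod_eq_zero (Finset.mem_univ i)
    simp [chi, hi]

/-- The noise operator in terms of the Walsh coefficients. -/
lemma T_eq (ρ : ℝ) (F : (α → Bool) → ℝ) (x : α → Bool) :
    T ρ F x = ∑ S : Finset α, ρ ^ S.card * (wc F S * ws S x) := by
  unfold T wc av
  have e : ∀ y : α → Bool, (∏ i, (1 + ρ * chi (x i) (y i)) / 2) * F y =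
      (∑ S : Finset α, ρ ^ S.card * (ws S x * ws S y)) / (Fintype.card (α → Bool) : ℝ) * F y := by
    intro y
    rw [sum_ws, Finset.prod_div_distrib, Finset.prod_const, Finset.card_univ, card_cube]
  rw [Finset.sum_congr rfl fun y _ => e y]
  have e2 : ∀ y : α → Bool, (∑ S : Finset α, ρ ^ S.card * (ws S x * ws S y)) /
      (Fintype.card (α → Bool) : ℝ) * F y =
      ∑ S : Finset α, ρ ^ S.card * (F y * ws S y * ws S x / (Fintype.card (α → Bool) : ℝ)) := by
    intro y
    rw [Finset.sum_div, Finset.sum_mul]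
    exact Finset.sum_congr rfl fun S _ => by ring
  rw [Finset.sum_congr rfl fun y _ => e2 y, Finset.sum_comm]
  refine Finset.sum_congr rfl fun S _ => ?_
  rw [← Finset.mul_sum, Finset.sum_div, Finset.sum_mul]
  congr 1
  exact Finset.sum_congr rfl fun y _ => by ring

/-- Parseval with noise. -/
lemma av_T_mul (ρ : ℝ) (F G : (α → Bool) → ℝ) :
    av (fun x => T ρ F x * G x) = ∑ S : Finset α, ρ ^ S.card * (wc F S * wc G S) := by
  have e : ∀ x, T ρ F x * G x = ∑ S : Finset α, ρ ^ S.card * (wc F S * (G x * ws S x)) := by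
    intro x
    rw [T_eq, Finset.sum_mul]
    exact Finset.sum_congr rfl fun S _ => by ring
  unfold av
  rw [Finset.sum_congr rfl fun x _ => e x, Finset.sum_comm, Finset.sum_div]
  refine Finset.sum_congr rfl fun S _ => ?_
  have e2 : wc G S = (∑ x, G x * ws S x) / (Fintype.card (α → Bool) : ℝ) := rfl
  rw [e2, ← Finset.mul_sum, ← Finset.mul_sum]
  ring

lemma T_one (F : (α → Bool) → ℝ) (x : α → Bool) : T 1 F x = F x := by
  unfold T
  have e : ∀ y : α → Bool, (∏ i, (1 + 1 * chi (x i) (y i)) / 2) * F y =
      if x = y then F x else 0 := by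
    intro y
    rw [Finset.prod_div_distrib, Finset.prod_const, Finset.card_univ, prod_two, card_cube]
    split_ifs with h
    · subst h
      field_simp
    · simp
  rw [Finset.sum_congr rfl fun y _ => e y]
  simp

/-- Parseval. -/
lemma parseval (F G : (α → Bool) → ℝ) :
    av (fun x => F x * G x) = ∑ S : Finset α, wc F S * wc G S := by
  have h := av_T_mul 1 F G
  simp only [T_one, one_pow, one_mul] at h
  exact h

/-- Flipping a coordinate is a bijection. -/
def flE (i : α) : (α → Bool) ≃ (α → Bool) where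
  toFun x := fl x i
  invFun x := fl x i
  left_inv x := by
    funext j
    unfold fl
    by_cases h : j = i
    · subst h
      simp
    · simp [h]
  right_inv x := by
    funext j
    unfold fl
    by_cases h : j = i
    · subst h
      simp
    · simp [h]

lemma ws_fl (S : Finset α) (i : α) (x : α → Bool) :
    ws S (fl x i) = if i ∈ S then - ws S x else ws S x := by
  unfold ws
  split_ifs with h
  · rw [← Finset.mul_prod_erase S _ h, ← Finset.mul_prod_erase S _ h]
    have e : ∀ j ∈ S.erase i, sg (fl x i j) = sg (x j) := by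
      intro j hj
      unfold fl
      rw [Function.update_of_ne (Finset.ne_of_mem_erase hj)]
    rw [Finset.prod_congr rfl e]
    have e2 : sg (fl x i i) = - sg (x i) := by
      unfold fl
      rw [Function.update_self, sg_not]
    rw [e2]
    ring
  · refine Finset.prod_congr rfl fun j hj => ?_
    unfold fl
    rw [Function.update_of_ne]
    rintro rfl
    exact h hj

lemma wc_diff (h : (α → Bool) → ℝ) (S : Finset α) (i : α) :
    wc (fun x => h (fl x i) - h x) S = if i ∈ S then -2 * wc h S else 0 := by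
  have e1 : ∑ x : α → Bool, h (fl x i) * ws S x = ∑ x : α → Bool, h x * ws S (fl x i) := by
    rw [← Equiv.sum_comp (flE i) (fun x => h x * ws S (fl x i))]
    refine Finset.sum_congr rfl fun x _ => ?_
    have e2 : fl (flE i x) i = x := (flE i).left_inv x
    rw [e2]
    rfl
  unfold wc av
  have e3 : ∀ x : α → Bool, (h (fl x i) - h x) * ws S x = h (fl x i) * ws S x - h x * ws S x :=
    fun x => by ring
  rw [Finset.sum_congr rfl fun x _ => e3 x, Finset.sum_sub_distrib, e1]
  split_ifs with hi
  · have e4 : ∀ x : α → Bool, h x * ws S (fl x i) = - (h x * ws S x) := by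
      intro x
      rw [ws_fl, if_pos hi]
      ring
    rw [Finset.sum_congr rfl fun x _ => e4 x, Finset.sum_neg_distrib]
    ring
  · have e4 : ∀ x : α → Bool, h x * ws S (fl x i) = h x * ws S x := by
      intro x
      rw [ws_fl, if_neg hi]
    rw [Finset.sum_congr rfl fun x _ => e4 x]
    simp

/-- Poincare's inequality. -/
lemma energy (h : (α → Bool) → ℝ) (hL : Lip h) :
    ∑ S : Finset α, (S.card : ℝ) * wc h S ^ 2 ≤ (Fintype.card α : ℝ) / 4 := by
  have e1 : ∀ i : α, ∑ S : Finset α, (if i ∈ S then 4 * wc h S ^ 2 else 0) ≤ 1 := by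
    intro i
    have h1 := parseval (fun x => h (fl x i) - h x) (fun x => h (fl x i) - h x)
    have h2 : ∑ S : Finset α, (if i ∈ S then 4 * wc h S ^ 2 else 0) =
        ∑ S : Finset α, wc (fun x => h (fl x i) - h x) S * wc (fun x => h (fl x i) - h x) S := by
      refine Finset.sum_congr rfl fun S _ => ?_
      rw [wc_diff]
      split_ifs
      · ring
      · ring
    rw [h2, ← h1]
    unfold av
    rw [div_le_one card_pos]
    have h3 : ∀ x ∈ (Finset.univ : Finset (α → Bool)),
        (h (fl x i) - h x) * (h (fl x i) - h x) ≤ 1 := by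
      intro x _
      have := hL x i
      rw [abs_le] at this
      nlinarith [this.1, this.2]
    refine le_trans (Finset.sum_le_sum h3) ?_
    rw [Finset.sum_const, Finset.card_univ, nsmul_eq_mul, mul_one]
  have e2 : ∑ i : α, ∑ S : Finset α, (if i ∈ S then 4 * wc h S ^ 2 else 0) =
      4 * ∑ S : Finset α, (S.card : ℝ) * wc h S ^ 2 := by
    rw [Finset.sum_comm, Finset.mul_sum]
    refine Finset.sum_congr rfl fun S _ => ?_
    rw [← Finset.sum_filter, Finset.sum_const, Finset.filter_mem_eq_inter, Finset.univ_inter,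
      nsmul_eq_mul]
    ring
  have e3 : ∑ i : α, ∑ S : Finset α, (if i ∈ S then 4 * wc h S ^ 2 else 0) ≤
      (Fintype.card α : ℝ) := by
    refine le_trans (Finset.sum_le_sum fun i _ => e1 i) ?_
    rw [Finset.sum_const, Finset.card_univ, nsmul_eq_mul, mul_one]
  linarith

lemma one_sub_pow_sq (ρ : ℝ) (h0 : 0 ≤ ρ) (h1 : ρ ≤ 1) (n : ℕ) :
    (1 - ρ ^ n) ^ 2 ≤ (1 - ρ) * n := by
  have a1 : 0 ≤ ρ ^ n := pow_nonneg h0 n
  have a2 : ρ ^ n ≤ 1 := pow_le_one₀ h0 h1
  have a3 : 1 - ρ ^ n ≤ (1 - ρ) * n := by
    have h := one_add_mul_le_pow (a := ρ - 1) (by linarith) n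
    have e : (1 + (ρ - 1)) ^ n = ρ ^ n := by
      congr 1
      ring
    rw [e] at h
    linarith
  nlinarith

end walsh

theorem poi : PoiStmt := by
  intro α _ _ ρ F h h0 h1 hL
  have e1 : av (fun x => F x * h x) - av (fun x => T ρ F x * h x) =
      ∑ S : Finset α, wc F S * ((1 - ρ ^ S.card) * wc h S) := by
    rw [parseval, av_T_mul, ← Finset.sum_sub_distrib]
    exact Finset.sum_congr rfl fun S _ => by ring
  have e2 : (∑ S : Finset α, wc F S * ((1 - ρ ^ S.card) * wc h S)) ^ 2 ≤
      (av fun x => F x ^ 2) * ((1 - ρ) * Fintype.card α / 4) := by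
    refine (Finset.sum_mul_sq_le_sq_mul_sq _ _ _).trans ?_
    have b1 : ∑ S : Finset α, wc F S ^ 2 = av fun x => F x ^ 2 := by
      have := parseval F F
      simp only [pow_two]
      exact this.symm
    have b2 : ∑ S : Finset α, ((1 - ρ ^ S.card) * wc h S) ^ 2 ≤
        (1 - ρ) * Fintype.card α / 4 := by
      have b3 : ∀ S ∈ (Finset.univ : Finset (Finset α)), ((1 - ρ ^ S.card) * wc h S) ^ 2 ≤
          (1 - ρ) * ((S.card : ℝ) * wc h S ^ 2) := by
        intro S _
        rw [mul_pow]
        have := one_sub_pow_sq ρ h0 h1 S.card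
        nlinarith [mul_le_mul_of_nonneg_right this (sq_nonneg (wc h S))]
      refine (Finset.sum_le_sum b3).trans ?_
      rw [← Finset.mul_sum]
      have := mul_le_mul_of_nonneg_left (energy h hL) (by linarith : (0 : ℝ) ≤ 1 - ρ)
      linarith
    rw [b1]
    refine mul_le_mul_of_nonneg_left b2 ?_
    unfold av
    exact div_nonneg (Finset.sum_nonneg fun x _ => sq_nonneg _) (Nat.cast_nonneg _)
  rw [e1]
  have e3 : Real.sqrt (av fun x => F x ^ 2) * Real.sqrt ((1 - ρ) * Fintype.card α) / 2 =
      Real.sqrt ((av fun x => F x ^ 2) * ((1 - ρ) * Fintype.card α / 4)) := by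
    have c1 : 0 ≤ av fun x => F x ^ 2 := by
      unfold av
      exact div_nonneg (Finset.sum_nonneg fun x _ => sq_nonneg _) (Nat.cast_nonneg _)
    have c2 : (av fun x => F x ^ 2) * ((1 - ρ) * Fintype.card α / 4) =
        (av fun x => F x ^ 2) * ((1 - ρ) * Fintype.card α) * (1 / 2) ^ 2 := by ring
    rw [c2, Real.sqrt_mul (mul_nonneg c1 (mul_nonneg (by linarith) (Nat.cast_nonneg _))),
      Real.sqrt_mul c1, Real.sqrt_sq (by norm_num)]
    ring
  rw [e3]
  exact Real.abs_le_sqrt e2

end Pool.Agent.STR.H48
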